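import Pool.Agent.Leo3.Stmts

/-!
Squad leo3 (MP_5f2860_nt), module SUA: the sum over `a` for fixed `P`.
-/

set_option autoImplicit false

open Filter Topology Set

namespace Pool.Agent.Leo3.H40

theorem le_of_sq {a b : ℝ} (h : a ^ 2 ≤ b ^ 2) (hb : 0 ≤ b) : a ≤ b :=
  (abs_le_of_sq_le_sq' h hb).2

/-! ### The function `s arcsin s + √(1 - s²)` -/

noncomputable def hf (s : ℝ) : ℝ := s * Real.arcsin s + √(1 - s ^ 2)

theorem hf_ge_one {s : ℝ} (hs : 1 ≤ s) : hf s = s * (Real.pi / 2) := by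
  unfold hf
  rw [Real.arcsin_of_one_le hs, Real.sqrt_eq_zero_of_nonpos (by nlinarith)]
  ring

theorem hf_cont : Continuous hf := by
  unfold hf
  exact (continuous_id.mul Real.continuous_arcsin).add (by fun_prop)

theorem hf_deriv {s : ℝ} (h0 : 0 < s) (h1 : s < 1) : HasDerivAt hf (Real.arcsin s) s := by
  have hp : 0 < 1 - s ^ 2 := by nlinarith
  have hd1 := (hasDerivAt_id s).mul (Real.hasDerivAt_arcsin (x := s) (by linarith) (by linarith))
  have hd2 : HasDerivAt (fun x : ℝ => √(1 - x ^ 2)) (-(2 * s) / (2 * √(1 - s ^ 2))) s := by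
    have h : HasDerivAt (fun x : ℝ => 1 - x ^ 2) (-(2 * s)) s := by
      have := (hasDerivAt_pow 2 s).const_sub 1
      simpa using this
    exact h.sqrt hp.ne'
  have h := hd1.add hd2
  have hS : 0 < √(1 - s ^ 2) := Real.sqrt_pos.2 hp
  have he : 1 * Real.arcsin s + id s * (1 / √(1 - s ^ 2)) + -(2 * s) / (2 * √(1 - s ^ 2)) =
      Real.arcsin s := by
    simp only [id]
    field_simp
    ring
  rw [he] at h
  exact h

theorem hf_mono_Icc : MonotoneOn hf (Icc 0 1) := by
  refine monotoneOn_of_deriv_nonneg (convex_Icc 0 1) hf_cont.continuousOn ?_ ?_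
  · intro x hx
    rw [interior_Icc] at hx
    exact (hf_deriv hx.1 hx.2).differentiableAt.differentiableWithinAt
  · intro x hx
    rw [interior_Icc] at hx
    rw [(hf_deriv hx.1 hx.2).deriv]
    exact Real.arcsin_nonneg.2 hx.1.le

theorem hH_mono_Icc : MonotoneOn (fun s => s * (Real.pi / 2) - hf s) (Icc 0 1) := by
  refine monotoneOn_of_deriv_nonneg (convex_Icc 0 1)
    ((continuous_id.mul continuous_const).sub hf_cont).continuousOn ?_ ?_
  · intro x hx
    rw [interior_Icc] at hx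
    exact (((hasDerivAt_id x).mul_const (Real.pi / 2)).sub
      (hf_deriv hx.1 hx.2)).differentiableAt.differentiableWithinAt
  · intro x hx
    rw [interior_Icc] at hx
    have h := (((hasDerivAt_id x).mul_const (Real.pi / 2)).sub (hf_deriv hx.1 hx.2)).deriv
    have h2 : deriv (fun s => s * (Real.pi / 2) - hf s) x = 1 * (Real.pi / 2) - Real.arcsin x := h
    rw [h2]
    have := Real.arcsin_le_pi_div_two x
    linarith

theorem hf_mono {s t : ℝ} (hs : 0 ≤ s) (hst : s ≤ t) : hf s ≤ hf t := by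
  rcases le_or_gt t 1 with ht | ht
  · exact hf_mono_Icc ⟨hs, hst.trans ht⟩ ⟨hs.trans hst, ht⟩ hst
  · rcases le_or_gt s 1 with h | h
    · have h1 := hf_mono_Icc ⟨hs, h⟩ ⟨zero_le_one, le_refl (1 : ℝ)⟩ h
      rw [hf_ge_one (le_refl (1 : ℝ))] at h1
      rw [hf_ge_one ht.le]
      have := Real.pi_pos
      nlinarith
    · rw [hf_ge_one ht.le, hf_ge_one h.le]
      have := Real.pi_pos
      nlinarith

theorem hf_lip {s t : ℝ} (hs : 0 ≤ s) (hst : s ≤ t) : hf t - hf s ≤ (t - s) * (Real.pi / 2) := by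
  rcases le_or_gt t 1 with ht | ht
  · have := hH_mono_Icc ⟨hs, hst.trans ht⟩ ⟨hs.trans hst, ht⟩ hst
    simp only at this
    linarith
  · rcases le_or_gt s 1 with h | h
    · have h1 := hH_mono_Icc ⟨hs, h⟩ ⟨zero_le_one, le_refl (1 : ℝ)⟩ h
      simp only at h1
      rw [hf_ge_one (le_refl (1 : ℝ))] at h1
      rw [hf_ge_one ht.le]
      linarith
    · rw [hf_ge_one ht.le, hf_ge_one h.le]
      linarith

/-! ### The antiderivative -/

noncomputable def gf (c k x : ℝ) : ℝ := √k * Real.arcsin (√k * x / c) + √(c ^ 2 - k * x ^ 2) / x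

theorem gf_eq {c k x : ℝ} (hc : 0 < c) (hk : 0 ≤ k) (hx : 0 < x) :
    gf c k x = c / x * hf (√k * x / c) := by
  unfold gf hf
  have h1 : √(c ^ 2 - k * x ^ 2) = c * √(1 - (√k * x / c) ^ 2) := by
    have h2 : c ^ 2 - k * x ^ 2 = c ^ 2 * (1 - (√k * x / c) ^ 2) := by
      rw [div_pow, mul_pow, Real.sq_sqrt hk]
      field_simp
    rw [h2, Real.sqrt_mul (sq_nonneg c), Real.sqrt_sq hc.le]
  rw [h1]
  field_simp

theorem gf_cont (c k : ℝ) : ContinuousOn (gf c k) (Ioi 0) := by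
  unfold gf
  refine ContinuousOn.add ?_ ?_
  · exact (continuous_const.mul (Real.continuous_arcsin.comp
      ((continuous_const.mul continuous_id).div_const c))).continuousOn
  · refine ContinuousOn.div ?_ continuousOn_id ?_
    · exact (by fun_prop : Continuous fun x : ℝ => √(c ^ 2 - k * x ^ 2)).continuousOn
    · intro x hx
      exact (ne_of_gt hx)

theorem gf_deriv {c k x : ℝ} (hc : 0 < c) (hk : 0 ≤ k) (hx : 0 < x) (h : k * x ^ 2 < c ^ 2) :
    HasDerivAt (gf c k) (-√(c ^ 2 - k * x ^ 2) / x ^ 2) x := by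
  have hp : 0 < c ^ 2 - k * x ^ 2 := by linarith
  set S := √(c ^ 2 - k * x ^ 2) with hS
  have hS0 : 0 < S := Real.sqrt_pos.2 hp
  have hS2 : S ^ 2 = c ^ 2 - k * x ^ 2 := Real.sq_sqrt hp.le
  set u := √k * x / c with hu
  have hu2 : 1 - u ^ 2 = (S / c) ^ 2 := by
    rw [hu, div_pow, mul_pow, Real.sq_sqrt hk, div_pow, hS2]
    field_simp
  have hus : √(1 - u ^ 2) = S / c := by
    rw [hu2, Real.sqrt_sq (div_pos hS0 hc).le]
  have hu1 : u ^ 2 < 1 := by
    have : 0 < (S / c) ^ 2 := by positivity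
    linarith
  have hune1 : u ≠ 1 := by intro h1; rw [h1] at hu1; norm_num at hu1
  have hune2 : u ≠ -1 := by intro h1; rw [h1] at hu1; norm_num at hu1
  have hd0 : HasDerivAt (fun y : ℝ => √k * y / c) (√k / c) x := by
    have := ((hasDerivAt_id x).const_mul (√k)).div_const c
    simpa using this
  have hd1 := ((Real.hasDerivAt_arcsin hune2 hune1).comp x hd0).const_mul (√k)
  have hd2 : HasDerivAt (fun y : ℝ => √(c ^ 2 - k * y ^ 2)) (-(k * (2 * x)) / (2 * S)) x := by
    have h3 : HasDerivAt (fun y : ℝ => c ^ 2 - k * y ^ 2) (-(k * (2 * x))) x := by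
      have := ((hasDerivAt_pow 2 x).const_mul k).const_sub (c ^ 2)
      simpa using this
    exact h3.sqrt hp.ne'
  have hd3 := hd2.div (hasDerivAt_id x) hx.ne'
  have h4 := hd1.add hd3
  have he : √k * (1 / √(1 - u ^ 2) * (√k / c)) +
      (-(k * (2 * x)) / (2 * S) * id x - √(c ^ 2 - k * x ^ 2) * 1) / id x ^ 2 = -S / x ^ 2 := by
    rw [hus, ← hS]
    simp only [id]
    have hkk : √k * √k = k := Real.mul_self_sqrt hk
    have h5 : √k * (1 / (S / c) * (√k / c)) = k / S := by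
      have h6 : √k * (1 / (S / c) * (√k / c)) = (√k * √k) / S := by field_simp
      rw [h6, hkk]
    rw [h5]
    field_simp
    ring
  rw [he] at h4
  exact h4

/-! ### The sum -/

section sum

variable {c k l : ℝ} (hc : 0 < c) (hl : 0 ≤ l) (hlk : l ≤ k) (hk : 0 < k)

/-- the summand -/
noncomputable def ff (c k l x : ℝ) : ℝ := (√(c ^ 2 - l * x ^ 2) - √(c ^ 2 - k * x ^ 2)) / x ^ 2

noncomputable def GG (c k l x : ℝ) : ℝ := gf c k x - gf c l x

include hlk in
theorem ff_nonneg (x : ℝ) : 0 ≤ ff c k l x := by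
  unfold ff
  refine div_nonneg (sub_nonneg.2 (Real.sqrt_le_sqrt ?_)) (sq_nonneg x)
  have := mul_le_mul_of_nonneg_right hlk (sq_nonneg x)
  linarith

include hc hl hlk hk in
theorem GG_nonneg {x : ℝ} (hx : 0 < x) : 0 ≤ GG c k l x := by
  unfold GG
  rw [gf_eq hc hk.le hx, gf_eq hc hl hx, ← mul_sub]
  refine mul_nonneg (div_pos hc hx).le (sub_nonneg.2 (hf_mono ?_ ?_))
  · positivity
  · have := Real.sqrt_le_sqrt hlk
    gcongr

include hc hl hlk hk in
theorem GG_le {x : ℝ} (hx : 0 < x) : GG c k l x ≤ (√k - √l) * (Real.pi / 2) := by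
  unfold GG
  rw [gf_eq hc hk.le hx, gf_eq hc hl hx, ← mul_sub]
  have h1 : √l * x / c ≤ √k * x / c := by
    have := Real.sqrt_le_sqrt hlk
    gcongr
  have h2 := hf_lip (s := √l * x / c) (t := √k * x / c) (by positivity) h1
  have h3 : 0 < c / x := div_pos hc hx
  calc c / x * (hf (√k * x / c) - hf (√l * x / c))
      ≤ c / x * ((√k * x / c - √l * x / c) * (Real.pi / 2)) :=
        mul_le_mul_of_nonneg_left h2 h3.le
    _ = (√k - √l) * (Real.pi / 2) := by field_simp

include hc hl hlk hk in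
theorem GG_top {x : ℝ} (hx : 0 < x) (h : c ^ 2 ≤ l * x ^ 2) :
    GG c k l x = (√k - √l) * (Real.pi / 2) := by
  have hk1 : c ^ 2 ≤ k * x ^ 2 := h.trans (mul_le_mul_of_nonneg_right hlk (sq_nonneg x))
  have key : ∀ m : ℝ, 0 ≤ m → c ^ 2 ≤ m * x ^ 2 → gf c m x = √m * (Real.pi / 2) := by
    intro m hm hm1
    unfold gf
    rw [Real.sqrt_eq_zero_of_nonpos (by linarith : c ^ 2 - m * x ^ 2 ≤ 0)]
    have h1 : 1 ≤ √m * x / c := by
      rw [le_div_iff₀ hc, one_mul]
      refine le_of_sq ?_ (by positivity)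
      rw [mul_pow, Real.sq_sqrt hm]; exact hm1
    rw [Real.arcsin_of_one_le h1]
    simp
  unfold GG
  rw [key k hk.le hk1, key l hl h]; ring

/-- the increasing part -/
theorem ff_mono {x y : ℝ} (hx : 0 < x) (hxy : x ≤ y) (hl : 0 ≤ l) (hlk : l ≤ k)
    (hy : k * y ^ 2 ≤ c ^ 2) : ff c k l x ≤ ff c k l y := by
  have hy0 : 0 < y := hx.trans_le hxy
  have hxy2 : x ^ 2 ≤ y ^ 2 := by gcongr
  have hk0 : 0 ≤ k := hl.trans hlk
  have hx1 : k * x ^ 2 ≤ c ^ 2 := (mul_le_mul_of_nonneg_left hxy2 hk0).trans hy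
  have e : ∀ z : ℝ, k * z ^ 2 ≤ c ^ 2 →
      (√(c ^ 2 - l * z ^ 2) - √(c ^ 2 - k * z ^ 2)) *
        (√(c ^ 2 - l * z ^ 2) + √(c ^ 2 - k * z ^ 2)) = (k - l) * z ^ 2 := by
    intro z hz
    have h1 : √(c ^ 2 - l * z ^ 2) ^ 2 = c ^ 2 - l * z ^ 2 := Real.sq_sqrt (by
      have := mul_le_mul_of_nonneg_right hlk (sq_nonneg z); linarith)
    have h2 : √(c ^ 2 - k * z ^ 2) ^ 2 = c ^ 2 - k * z ^ 2 := Real.sq_sqrt (by linarith)
    linear_combination h1 - h2
  rcases eq_or_lt_of_le hlk with h | h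
  · subst h
    unfold ff
    simp
  · have hpos : ∀ z : ℝ, 0 < z → k * z ^ 2 ≤ c ^ 2 →
        0 < √(c ^ 2 - l * z ^ 2) + √(c ^ 2 - k * z ^ 2) := by
      intro z hz hz1
      have : 0 < √(c ^ 2 - l * z ^ 2) := Real.sqrt_pos.2 (by
        have := mul_lt_mul_of_pos_right h (pow_pos hz 2); linarith)
      have := Real.sqrt_nonneg (c ^ 2 - k * z ^ 2)
      linarith
    have hf' : ∀ z : ℝ, 0 < z → k * z ^ 2 ≤ c ^ 2 →
        ff c k l z = (k - l) / (√(c ^ 2 - l * z ^ 2) + √(c ^ 2 - k * z ^ 2)) := by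
      intro z hz hz1
      unfold ff
      rw [div_eq_div_iff (by positivity) (hpos z hz hz1).ne']
      exact e z hz1
    rw [hf' x hx hx1, hf' y hy0 hy]
    refine div_le_div_of_nonneg_left (by linarith) (hpos y hy0 hy) ?_
    have h1 : √(c ^ 2 - l * y ^ 2) ≤ √(c ^ 2 - l * x ^ 2) := Real.sqrt_le_sqrt (by
      have := mul_le_mul_of_nonneg_left hxy2 hl; linarith)
    have h2 : √(c ^ 2 - k * y ^ 2) ≤ √(c ^ 2 - k * x ^ 2) := Real.sqrt_le_sqrt (by
      have := mul_le_mul_of_nonneg_left hxy2 hk0; linarith)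
    linarith

/-- the decreasing part -/
theorem ff_anti {x y : ℝ} (hx : 0 < x) (hxy : x ≤ y) (hl : 0 ≤ l) (hlk : l ≤ k)
    (hx1 : c ^ 2 ≤ k * x ^ 2) : ff c k l y ≤ ff c k l x := by
  have hxy2 : x ^ 2 ≤ y ^ 2 := by gcongr
  have hk0 : 0 ≤ k := hl.trans hlk
  have hy1 : c ^ 2 ≤ k * y ^ 2 := hx1.trans (mul_le_mul_of_nonneg_left hxy2 hk0)
  unfold ff
  rw [Real.sqrt_eq_zero_of_nonpos (by linarith : c ^ 2 - k * x ^ 2 ≤ 0),
    Real.sqrt_eq_zero_of_nonpos (by linarith : c ^ 2 - k * y ^ 2 ≤ 0), sub_zero, sub_zero]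
  have h1 : √(c ^ 2 - l * y ^ 2) ≤ √(c ^ 2 - l * x ^ 2) := Real.sqrt_le_sqrt (by
    have := mul_le_mul_of_nonneg_left hxy2 hl; linarith)
  exact div_le_div₀ (Real.sqrt_nonneg _) h1 (by positivity) hxy2

theorem GG_deriv {x : ℝ} (hc : 0 < c) (hl : 0 ≤ l) (hlk : l ≤ k) (hx : 0 < x)
    (h : k * x ^ 2 < c ^ 2) : HasDerivAt (GG c k l) (ff c k l x) x := by
  have h1 := gf_deriv hc (hl.trans hlk) hx h
  have h2 := gf_deriv hc hl hx ((mul_le_mul_of_nonneg_right hlk (sq_nonneg x)).trans_lt h)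
  have h3 := h1.sub h2
  have he : -√(c ^ 2 - k * x ^ 2) / x ^ 2 - -√(c ^ 2 - l * x ^ 2) / x ^ 2 = ff c k l x := by
    unfold ff; ring
  rw [he] at h3
  exact h3

/-- interval in the increasing part -/
theorem inc {x y : ℝ} (hc : 0 < c) (hl : 0 ≤ l) (hlk : l ≤ k) (hx : 0 < x) (hxy : x ≤ y)
    (hy : k * y ^ 2 ≤ c ^ 2) : (y - x) * ff c k l x ≤ GG c k l y - GG c k l x := by
  rcases eq_or_lt_of_le hxy with h | h
  · subst h; simp
  have hk0 : 0 ≤ k := hl.trans hlk
  have hcont : ContinuousOn (GG c k l) (Icc x y) := by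
    have h1 : Icc x y ⊆ Ioi 0 := fun z hz => lt_of_lt_of_le hx hz.1
    exact ((gf_cont c k).mono h1).sub ((gf_cont c l).mono h1)
  rcases eq_or_lt_of_le hk0 with hk | hk
  · have hl' : l = k := le_antisymm hlk (by rw [← hk]; exact hl)
    subst hl'
    unfold ff GG
    simp
  obtain ⟨z, hz, hz1⟩ := exists_hasDerivAt_eq_slope (GG c k l) (ff c k l) h hcont (by
    intro z hz
    have hz0 : 0 < z := hx.trans hz.1
    have : z ^ 2 < y ^ 2 := by
      have := hz.2
      gcongr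
    exact GG_deriv hc hl hlk hz0 ((mul_lt_mul_of_pos_left this hk).trans_le hy))
  have h2 : ff c k l x ≤ ff c k l z := by
    refine ff_mono hx hz.1.le hl hlk ?_
    have : z ^ 2 ≤ y ^ 2 := by
      have h0 : 0 ≤ z := (hx.trans hz.1).le
      have := hz.2.le
      gcongr
    exact (mul_le_mul_of_nonneg_left this hk0).trans hy
  have h3 : GG c k l y - GG c k l x = (y - x) * ff c k l z := by
    rw [hz1]
    have : y - x ≠ 0 := by linarith
    field_simp
  rw [h3]
  exact mul_le_mul_of_nonneg_left h2 (by linarith)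

/-- interval in the decreasing part -/
theorem dec {x y : ℝ} (hc : 0 < c) (hl : 0 ≤ l) (hlk : l ≤ k) (hk : 0 < k) (hx : 0 < x)
    (hxy : x ≤ y) (hx1 : c ^ 2 ≤ k * x ^ 2) :
    (y - x) * ff c k l y ≤ GG c k l y - GG c k l x := by
  rcases eq_or_lt_of_le hxy with h | h
  · subst h; simp
  have hy0 : 0 < y := hx.trans h
  rcases le_or_gt (c ^ 2) (l * y ^ 2) with hy | hy
  · have h1 : ff c k l y = 0 := by
      unfold ff
      have hky : c ^ 2 ≤ k * y ^ 2 := hy.trans (mul_le_mul_of_nonneg_right hlk (sq_nonneg y))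
      rw [Real.sqrt_eq_zero_of_nonpos (by linarith : c ^ 2 - k * y ^ 2 ≤ 0),
        Real.sqrt_eq_zero_of_nonpos (by linarith : c ^ 2 - l * y ^ 2 ≤ 0)]
      simp
    rw [h1, GG_top hc hl hlk hk hy0 hy, mul_zero, sub_nonneg]
    exact GG_le hc hl hlk hk hx
  · -- on `[x, y]` the first part is constant
    have hg : ∀ z ∈ Icc x y, gf c k z = √k * (Real.pi / 2) := by
      intro z hz
      have hz0 : 0 < z := lt_of_lt_of_le hx hz.1
      have hz2 : x ^ 2 ≤ z ^ 2 := by
        have := hz.1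
        gcongr
      have hkz : c ^ 2 ≤ k * z ^ 2 := hx1.trans (mul_le_mul_of_nonneg_left hz2 hk.le)
      unfold gf
      rw [Real.sqrt_eq_zero_of_nonpos (by linarith : c ^ 2 - k * z ^ 2 ≤ 0)]
      have h1 : 1 ≤ √k * z / c := by
        rw [le_div_iff₀ hc, one_mul]
        refine le_of_sq ?_ (by positivity)
        rw [mul_pow, Real.sq_sqrt hk.le]; exact hkz
      rw [Real.arcsin_of_one_le h1]
      simp
    have hcont : ContinuousOn (gf c l) (Icc x y) :=
      (gf_cont c l).mono (fun z hz => lt_of_lt_of_le hx hz.1)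
    obtain ⟨z, hz, hz1⟩ := exists_hasDerivAt_eq_slope (gf c l)
      (fun z => -√(c ^ 2 - l * z ^ 2) / z ^ 2) h hcont (by
        intro z hz
        have hz0 : 0 < z := hx.trans hz.1
        refine gf_deriv hc hl hz0 (lt_of_le_of_lt (mul_le_mul_of_nonneg_left ?_ hl) hy)
        have := hz.2.le
        gcongr)
    have hz0 : 0 < z := hx.trans hz.1
    have hzx : x ^ 2 ≤ z ^ 2 := by
      have := hz.1.le
      gcongr
    have hfz : ff c k l z = √(c ^ 2 - l * z ^ 2) / z ^ 2 := by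
      unfold ff
      rw [Real.sqrt_eq_zero_of_nonpos (by
        have := hx1.trans (mul_le_mul_of_nonneg_left hzx hk.le); linarith : c ^ 2 - k * z ^ 2 ≤ 0),
        sub_zero]
    have h3 : GG c k l y - GG c k l x = (y - x) * ff c k l z := by
      unfold GG
      rw [hg y ⟨hxy, le_refl y⟩, hg x ⟨le_refl x, hxy⟩, hfz]
      have h4 : gf c l y - gf c l x = (y - x) * (-√(c ^ 2 - l * z ^ 2) / z ^ 2) := by
        rw [hz1]
        have : y - x ≠ 0 := by linarith
        field_simp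
      linear_combination -h4
    rw [h3]
    refine mul_le_mul_of_nonneg_left ?_ (by linarith)
    exact ff_anti hz0 hz.2.le hl hlk (hx1.trans (mul_le_mul_of_nonneg_left hzx hk.le))

/-- the sup -/
theorem ff_le {x : ℝ} (hc : 0 < c) (hl : 0 ≤ l) (hlk : l ≤ k) (hk : 0 < k) (hx : 1 ≤ x) :
    ff c k l x ≤ min c (k / c) := by
  have hx0 : 0 < x := by linarith
  have hw : √(c ^ 2 - l * x ^ 2) ≤ c := by
    rw [Real.sqrt_le_left hc.le]
    have := mul_nonneg hl (sq_nonneg x)
    linarith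
  refine le_min ?_ ?_
  · unfold ff
    have h1 := Real.sqrt_nonneg (c ^ 2 - k * x ^ 2)
    rw [div_le_iff₀ (by positivity)]
    have h2 : 1 ≤ x ^ 2 := by nlinarith
    nlinarith
  · -- the point of the maximum
    have hdec : ∀ z : ℝ, 0 < z → c ^ 2 ≤ k * z ^ 2 → ff c k l z ≤ k / c := by
      intro z hz hz1
      have hw' : √(c ^ 2 - l * z ^ 2) ≤ c := by
        rw [Real.sqrt_le_left hc.le]
        have := mul_nonneg hl (sq_nonneg z)
        linarith
      unfold ff
      rw [Real.sqrt_eq_zero_of_nonpos (by linarith : c ^ 2 - k * z ^ 2 ≤ 0), sub_zero,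
        div_le_div_iff₀ (by positivity) hc]
      nlinarith
    rcases le_or_gt (c ^ 2) (k * x ^ 2) with h | h
    · exact hdec x hx0 h
    · set y := c / √k with hy
      have hsk : 0 < √k := Real.sqrt_pos.2 hk
      have hy2 : k * y ^ 2 = c ^ 2 := by
        rw [hy, div_pow, Real.sq_sqrt hk.le]
        field_simp
      have hy0 : 0 < y := div_pos hc hsk
      have hxy : x ≤ y := by
        refine le_of_sq ?_ hy0.le
        have : k * x ^ 2 ≤ k * y ^ 2 := by rw [hy2]; exact h.le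
        exact le_of_mul_le_mul_left this hk
      exact (ff_mono hx0 hxy hl hlk hy2.le).trans (hdec y hy0 hy2.ge)

/-- the sum over a progression with difference `2` -/
theorem sum_le (hc : 0 < c) (hl : 0 ≤ l) (hlk : l ≤ k) (hk : 0 < k) {a : ℝ} (ha : 1 ≤ a)
    (m : ℕ) : ∑ i ∈ Finset.range (m + 1), ff c k l (a + 2 * i) ≤
      GG c k l (a + 2 * m) / 2 +
        (if k * (a + 2 * m) ^ 2 ≤ c ^ 2 then ff c k l (a + 2 * m) else min c (k / c)) := by
  induction m with
  | zero =>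
    simp only [zero_add, Finset.range_one, Finset.sum_singleton, Nat.cast_zero, mul_zero, add_zero]
    have h1 := GG_nonneg hc hl hlk hk (x := a) (by linarith)
    split_ifs with h
    · linarith
    · have := ff_le (x := a) hc hl hlk hk ha
      linarith
  | succ m ih =>
    rw [Finset.sum_range_succ]
    set x : ℝ := a + 2 * m with hx
    have hx1 : 1 ≤ x := by
      have : (0 : ℝ) ≤ m := Nat.cast_nonneg m
      rw [hx]; linarith
    have hx0 : 0 < x := by linarith
    have hy : a + 2 * ((m + 1 : ℕ) : ℝ) = x + 2 := by rw [hx]; push_cast; ring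
    rw [hy]
    have hxy : x ≤ x + 2 := by linarith
    have hfy := ff_le (x := x + 2) hc hl hlk hk (by linarith)
    have hfx := ff_le (x := x) hc hl hlk hk hx1
    split_ifs with h2
    · -- both in the increasing part
      have h1 : k * x ^ 2 ≤ c ^ 2 := by
        refine le_trans (mul_le_mul_of_nonneg_left ?_ hk.le) h2
        gcongr
      rw [if_pos h1] at ih
      have h3 := inc hc hl hlk hx0 hxy h2
      linarith
    · rw [not_le] at h2
      split_ifs at ih with h1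
      · -- the interval contains the maximum
        set y := c / √k with hy'
        have hsk : 0 < √k := Real.sqrt_pos.2 hk
        have hy2 : k * y ^ 2 = c ^ 2 := by
          rw [hy', div_pow, Real.sq_sqrt hk.le]
          field_simp
        have hy0 : 0 < y := div_pos hc hsk
        have hxy1 : x ≤ y := by
          refine le_of_sq ?_ hy0.le
          have : k * x ^ 2 ≤ k * y ^ 2 := by rw [hy2]; exact h1
          exact le_of_mul_le_mul_left this hk
        have hxy2 : y ≤ x + 2 := by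
          refine le_of_sq ?_ (by linarith)
          have : k * y ^ 2 ≤ k * (x + 2) ^ 2 := by rw [hy2]; exact h2.le
          exact le_of_mul_le_mul_left this hk
        have h3 := inc hc hl hlk hx0 hxy1 hy2.le
        have h4 := dec hc hl hlk hk hy0 hxy2 hy2.ge
        rcases le_total (ff c k l x) (ff c k l (x + 2)) with h5 | h5
        · have h6 : (x + 2 - y) * ff c k l x ≤ (x + 2 - y) * ff c k l (x + 2) :=
            mul_le_mul_of_nonneg_left h5 (by linarith)
          have h7 : (y - x) * ff c k l x + (x + 2 - y) * ff c k l x = 2 * ff c k l x := by ring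
          linarith
        · have h6 : (y - x) * ff c k l (x + 2) ≤ (y - x) * ff c k l x :=
            mul_le_mul_of_nonneg_left h5 (by linarith)
          have h7 : (y - x) * ff c k l (x + 2) + (x + 2 - y) * ff c k l (x + 2) =
            2 * ff c k l (x + 2) := by ring
          linarith
      · rw [not_le] at h1
        have h3 := dec hc hl hlk hk hx0 hxy h1.le
        linarith

end sum

/-- Module SUA. -/
theorem sua_stmt : SuaStmt := by
  intro N P hP hN ε A
  set c : ℝ := 2 * P ^ (3 / 2 : ℝ) with hcdef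
  have hc : 0 < c := by positivity
  have hc2 : c ^ 2 = 4 * P ^ 3 := by
    rw [hcdef, mul_pow, ← Real.rpow_natCast (P ^ (3 / 2 : ℝ)) 2, ← Real.rpow_mul hP.le]
    norm_num
  have hl : (0 : ℝ) ≤ 3 * P ^ 2 := by positivity
  have hk : 0 < N := lt_of_lt_of_le (by positivity) hN
  have hff : ∀ a : ℕ, hh N a P / (a : ℝ) ^ 2 = ff c N (3 * P ^ 2) a := by
    intro a
    unfold hh ff
    rw [hc2]
    have h1 : 4 * P ^ 3 - 3 * (a : ℝ) ^ 2 * P ^ 2 = 4 * P ^ 3 - 3 * P ^ 2 * (a : ℝ) ^ 2 := by ring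
    have h2 : 4 * P ^ 3 - (a : ℝ) ^ 2 * N = 4 * P ^ 3 - N * (a : ℝ) ^ 2 := by ring
    rw [h1, h2]
  have hsl : √(3 * P ^ 2) = √3 * P := by
    rw [Real.sqrt_mul (by norm_num), Real.sqrt_sq hP.le]
  have hmin : min (2 * P ^ (3 / 2 : ℝ)) (N / (2 * P ^ (3 / 2 : ℝ))) = min c (N / c) := by
    rw [hcdef]
  rw [hmin]
  simp_rw [hff]
  -- the sum over a progression
  have key : ∀ a₀ : ℕ, 1 ≤ a₀ → ∀ m : ℕ,
      ∑ i ∈ Finset.range m, ff c N (3 * P ^ 2) ((a₀ + 2 * i : ℕ) : ℝ) ≤
        Real.pi / 4 * (√N - √3 * P) + min c (N / c) := by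
    intro a₀ ha m
    have hsub : ∑ i ∈ Finset.range m, ff c N (3 * P ^ 2) ((a₀ + 2 * i : ℕ) : ℝ) ≤
        ∑ i ∈ Finset.range (m + 1), ff c N (3 * P ^ 2) ((a₀ + 2 * i : ℕ) : ℝ) := by
      rw [Finset.sum_range_succ]
      have := ff_nonneg (c := c) hN ((a₀ + 2 * m : ℕ) : ℝ)
      linarith
    refine hsub.trans ?_
    have h1 := sum_le hc hl hN hk (a := (a₀ : ℝ)) (by exact_mod_cast ha) m
    have h2 : ∑ i ∈ Finset.range (m + 1), ff c N (3 * P ^ 2) ((a₀ + 2 * i : ℕ) : ℝ) =
        ∑ i ∈ Finset.range (m + 1), ff c N (3 * P ^ 2) ((a₀ : ℝ) + 2 * i) := by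
      refine Finset.sum_congr rfl fun i _ => ?_
      push_cast; rfl
    rw [h2]
    refine h1.trans ?_
    have hx1 : (1 : ℝ) ≤ (a₀ : ℝ) + 2 * m := by
      have h3 : (1 : ℝ) ≤ a₀ := by exact_mod_cast ha
      have h4 : (0 : ℝ) ≤ m := Nat.cast_nonneg m
      linarith
    have h5 := GG_le hc hl hN hk (x := (a₀ : ℝ) + 2 * m) (by linarith)
    rw [hsl] at h5
    have h6 := ff_le (x := (a₀ : ℝ) + 2 * m) hc hl hN hk hx1
    split_ifs <;> linarith
  have himg : ∀ a₀ : ℕ, 1 ≤ a₀ → (∀ a : ℕ, a < A → 1 ≤ a → a % 2 = ε → ∃ i < A, a = a₀ + 2 * i) →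
      ∑ a ∈ (Finset.range A).filter (fun a => 1 ≤ a ∧ a % 2 = ε), ff c N (3 * P ^ 2) (a : ℝ) ≤
        Real.pi / 4 * (√N - √3 * P) + min c (N / c) := by
    intro a₀ ha h
    have hs : (Finset.range A).filter (fun a => 1 ≤ a ∧ a % 2 = ε) ⊆
        (Finset.range A).image (fun i => a₀ + 2 * i) := by
      intro a haa
      rw [Finset.mem_filter, Finset.mem_range] at haa
      obtain ⟨i, hi, rfl⟩ := h a haa.1 haa.2.1 haa.2.2
      exact Finset.mem_image.2 ⟨i, Finset.mem_range.2 hi, rfl⟩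
    refine (Finset.sum_le_sum_of_subset_of_nonneg hs fun i _ _ => ff_nonneg hN _).trans ?_
    rw [Finset.sum_image (fun i _ j _ hij => by
      have hij' : a₀ + 2 * i = a₀ + 2 * j := hij
      omega)]
    exact key a₀ ha A
  rcases Nat.lt_or_ge ε 2 with hε | hε
  · have : ε = 0 ∨ ε = 1 := by omega
    rcases this with rfl | rfl
    · refine himg 2 (by norm_num) ?_
      intro a h1 h2 h3
      exact ⟨(a - 2) / 2, by omega, by omega⟩
    · refine himg 1 (by norm_num) ?_
      intro a h1 h2 h3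
      exact ⟨(a - 1) / 2, by omega, by omega⟩
  · refine himg 1 (by norm_num) ?_
    intro a h1 h2 h3
    exfalso
    have := Nat.mod_lt a (show 0 < 2 by norm_num)
    omega

end Pool.Agent.Leo3.H40
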